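import Pool.Agent.H380.AG.Stm

/-!
# Task LV: Laplace's formula in vector form (helper921 for helper380)
-/

set_option autoImplicit false

open MeasureTheory Metric Set Filter Topology
open scoped ENNReal RealInnerProductSpace

namespace Pool.Agent.H921.AG

open Pool.Agent.W778.AG Pool.Agent.H380.AG

/-- expansion of the power -/
theorem expand (c : ℝ) (k : ℕ) (t : ℝ) : ((c : ℂ) + Complex.I * (t : ℂ)) ^ k =
    ∑ m ∈ Finset.range (k + 1),
      (Complex.I ^ m * (c : ℂ) ^ (k - m) * (k.choose m : ℂ)) * ((t ^ m : ℝ) : ℂ) := by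
  rw [add_comm, add_pow]
  apply Finset.sum_congr rfl
  intro m _
  rw [mul_pow]
  push_cast
  ring

theorem integrable_inner {n : ℕ} {σ : Measure (En n)} (hσ : Sph σ) (u : En n) (j : ℕ) :
    Integrable (fun b => ⟪b, u⟫ ^ j) σ := by
  obtain ⟨hprob, hsph⟩ := hσ
  refine Integrable.of_bound (C := ‖u‖ ^ j) ?_ ?_
  · exact (Continuous.pow (continuous_id.inner continuous_const) j).aestronglyMeasurable
  · have h : ∀ᵐ b ∂σ, b ∈ sphere (0 : En n) 1 := by
      rw [ae_iff]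
      exact hsph
    filter_upwards [h] with b hb
    rw [mem_sphere_zero_iff_norm] at hb
    rw [norm_pow, Real.norm_eq_abs]
    refine pow_le_pow_left₀ (abs_nonneg _) ?_ j
    have := abs_real_inner_le_norm b u
    rwa [hb, one_mul] at this

/-- the right side -/
theorem right_side {n : ℕ} {σ : Measure (En n)} (hσ : Sph σ) (u : En n) (c : ℝ) (k : ℕ)
    (M : ℕ → ℝ) (hM : ∀ j, ∫ b, ⟪b, u⟫ ^ j ∂σ = M j) :
    ∫ b, ((c : ℂ) + Complex.I * ((⟪b, u⟫ : ℝ) : ℂ)) ^ k ∂σ =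
      ∑ m ∈ Finset.range (k + 1),
        (Complex.I ^ m * (c : ℂ) ^ (k - m) * (k.choose m : ℂ)) * ((M m : ℝ) : ℂ) := by
  have h1 : (fun b : En n => ((c : ℂ) + Complex.I * ((⟪b, u⟫ : ℝ) : ℂ)) ^ k) = fun b =>
      ∑ m ∈ Finset.range (k + 1),
        (Complex.I ^ m * (c : ℂ) ^ (k - m) * (k.choose m : ℂ)) * ((⟪b, u⟫ ^ m : ℝ) : ℂ) := by
    funext b
    exact expand c k _
  rw [h1, integral_finsetSum]
  · apply Finset.sum_congr rfl
    intro m _
    rw [integral_const_mul]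
    congr 1
    have := integral_ofReal (𝕜 := ℂ) (μ := σ) (f := fun b : En n => ⟪b, u⟫ ^ m)
    rw [hM m] at this
    exact this
  · intro m _
    exact ((integrable_inner hσ u m).ofReal (𝕜 := ℂ)).const_mul _

/-- the left side -/
theorem left_side (n : ℕ) (c s : ℝ) (k : ℕ) :
    ∫ φ in (0 : ℝ)..Real.pi, ((c : ℂ) + Complex.I * (s : ℂ) * (Real.cos φ : ℂ)) ^ k *
      ((Real.sin φ ^ (n - 3) : ℝ) : ℂ) =
      ∑ m ∈ Finset.range (k + 1), (Complex.I ^ m * (c : ℂ) ^ (k - m) * (k.choose m : ℂ)) *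
        ((s ^ m * ∫ φ in (0 : ℝ)..Real.pi, Real.cos φ ^ m * Real.sin φ ^ (n - 3) : ℝ) : ℂ) := by
  have h1 : (fun φ : ℝ => ((c : ℂ) + Complex.I * (s : ℂ) * (Real.cos φ : ℂ)) ^ k *
      ((Real.sin φ ^ (n - 3) : ℝ) : ℂ)) = fun φ : ℝ =>
      ∑ m ∈ Finset.range (k + 1), (Complex.I ^ m * (c : ℂ) ^ (k - m) * (k.choose m : ℂ)) *
        ((s : ℂ) ^ m * ((Real.cos φ ^ m * Real.sin φ ^ (n - 3) : ℝ) : ℂ)) := by
    funext φ
    have h2 := expand c k (s * Real.cos φ)
    have h3 : (c : ℂ) + Complex.I * ((s * Real.cos φ : ℝ) : ℂ) =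
        (c : ℂ) + Complex.I * (s : ℂ) * (Real.cos φ : ℂ) := by push_cast; ring
    rw [h3] at h2
    rw [h2, Finset.sum_mul]
    apply Finset.sum_congr rfl
    intro m _
    push_cast
    ring
  rw [h1, intervalIntegral.integral_finsetSum]
  · apply Finset.sum_congr rfl
    intro m _
    rw [intervalIntegral.integral_const_mul, intervalIntegral.integral_const_mul,
      intervalIntegral.integral_ofReal]
    push_cast
    rfl
  · intro m _
    apply Continuous.intervalIntegrable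
    fun_prop

theorem t_LV (h : S_LAP) : S_LV := by
  intro n hn v σ hv hσ k x hx
  obtain ⟨hS, hperp, hmom⟩ := hσ
  obtain ⟨c, hc⟩ : ∃ c : ℝ, c = ⟪x, v⟫ := ⟨_, rfl⟩
  obtain ⟨u, hu⟩ : ∃ u : En n, u = x - c • v := ⟨_, rfl⟩
  have huv : ⟪u, v⟫ = 0 := by
    rw [hu, inner_sub_left, real_inner_smul_left, real_inner_self_eq_norm_sq, hv, ← hc]
    ring
  have hun : ‖u‖ ^ 2 = 1 - c ^ 2 := by
    have h1 : x = u + c • v := by rw [hu]; abel
    have h2 : ‖x‖ ^ 2 = ‖u‖ ^ 2 + c ^ 2 := by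
      rw [h1, norm_add_sq_real, real_inner_smul_right, huv, norm_smul, mul_pow, hv,
        Real.norm_eq_abs, sq_abs]
      ring
    rw [hx] at h2
    linarith
  have hc1 : |c| ≤ 1 := by
    have := abs_real_inner_le_norm x v
    rw [hx, hv, ← hc] at this
    linarith
  have hcos : Real.cos (Real.arccos c) = c :=
    Real.cos_arccos (abs_le.1 hc1).1 (abs_le.1 hc1).2
  have hsin : Real.sin (Real.arccos c) = ‖u‖ := by
    rw [Real.sin_arccos, ← hun, Real.sqrt_sq (norm_nonneg _)]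
  -- the right side
  have hae : ∀ᵐ b ∂σ, ((⟪x, v⟫ : ℝ) + Complex.I * (⟪x, b⟫ : ℝ) : ℂ) ^ k =
      ((c : ℂ) + Complex.I * ((⟪b, u⟫ : ℝ) : ℂ)) ^ k := by
    have h1 : ∀ᵐ b ∂σ, ⟪b, v⟫ = 0 := by
      rw [ae_iff]
      exact hperp
    filter_upwards [h1] with b hb
    have h2 : ⟪x, b⟫ = ⟪b, u⟫ := by
      rw [hu, inner_sub_right, real_inner_smul_right, hb, mul_zero, sub_zero, real_inner_comm]
    rw [h2, ← hc]
  rw [integral_congr_ae hae, right_side hS u c k _ (fun j => hmom j u huv), ← hc]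
  -- the left side
  have hL := h n k hn (Real.arccos c)
  rw [hcos, hsin, left_side n c ‖u‖ k, intervalIntegral.integral_ofReal] at hL
  obtain ⟨W, hW⟩ : ∃ W : ℝ, W = ∫ φ in (0 : ℝ)..Real.pi, Real.sin φ ^ (n - 3) := ⟨_, rfl⟩
  have hWpos : 0 < W := by
    rw [hW]
    exact integral_sin_pow_pos _
  have hWne : (W : ℂ) ≠ 0 := by
    exact_mod_cast hWpos.ne'
  rw [← hW] at hL
  apply mul_right_cancel₀ hWne
  rw [hL, Finset.sum_mul]
  apply Finset.sum_congr rfl
  intro m _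
  have h3 : ∫ φ in (0 : ℝ)..Real.pi, Real.cos φ ^ m * Real.sin φ ^ (n - 3) = mom n m * W := by
    unfold mom Pool.Agent.W778.AG.LE
    rw [← hW]
    field_simp
  rw [h3]
  push_cast
  ring

end Pool.Agent.H921.AG
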